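import Pool.Agent.P.MP_bf60a1_an.RA.Affine

/-! Thin tubes for most pairs. -/

namespace Pool.Agent.P.MP_bf60a1_an.TS

open MeasureTheory Metric Set RA

variable {D : ℕ} {μ : Measure (EuclideanSpace ℝ (Fin D))} [IsProbabilityMeasure μ]
  {G : Set (EuclideanSpace ℝ (Fin D) × EuclideanSpace ℝ (Fin D))}

open Filter Topology Nest in
theorem nest2 (hμ : ∀ᵐ z ∂μ, ‖z‖ ≤ 1) {k : ℕ} {σ C : ℝ} (hσ : 0 < σ)
    (hW : ∀ W : Submodule ℝ (EuclideanSpace ℝ (Fin D)), Module.finrank ℝ W ≤ k → ∀ r, 0 < r →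
      μ (nb W r) ≤ ENNReal.ofReal (C * r ^ σ))
    (hnull : ∀ V : Submodule ℝ (EuclideanSpace ℝ (Fin D)), Module.finrank ℝ V ≤ k + 1 →
      μ V = 0) :
    ∃ β > (0 : ℝ), ∃ τ > (0 : ℝ),
      ∃ G : Set (EuclideanSpace ℝ (Fin D) × EuclideanSpace ℝ (Fin D)),
      MeasurableSet G ∧ (μ.prod μ) Gᶜ ≤ ENNReal.ofReal (1 / 16) ∧ ∀ x y, (x, y) ∈ G →
        ∀ V : Submodule ℝ (EuclideanSpace ℝ (Fin D)), Module.finrank ℝ V ≤ k + 1 → x ∈ V → y ∈ V →
        ∀ r, 0 < r → r < τ → μ (nb V r) ≤ ENNReal.ofReal (r ^ β) := by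
  set η : ℝ := 1 / 8 with hη
  have hη0 : 0 < η := by norm_num [hη]
  have hη1 : η < 1 := by norm_num [hη]
  set K := max 1 (5 * C * 9 ^ σ) with hK
  have hK1 : 1 ≤ K := le_max_left _ _
  have e1 := small hμ hnull (ε := ENNReal.ofReal (η ^ 4)) (by simp; positivity)
  have e2 : ∀ᶠ r in 𝓝 (0 : ℝ), K * r ^ σ < η ^ 8 := by
    have : Tendsto (fun r : ℝ => K * r ^ σ) (𝓝 0) (𝓝 (K * 0 ^ σ)) :=
      ((Real.continuous_rpow_const hσ.le).tendsto 0).const_mul K
    rw [Real.zero_rpow hσ.ne', mul_zero] at this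
    exact this.eventually (gt_mem_nhds (by positivity))
  obtain ⟨ρ, ⟨⟨h1, h2⟩, h3⟩, h0⟩ := (((e1.and e2).and (ge_mem_nhds (by norm_num : (0 : ℝ) < 1 / 3)))
    |>.filter_mono nhdsWithin_le_nhds |>.and (self_mem_nhdsWithin (s := Ioi (0 : ℝ)))).exists
  replace h0 : 0 < ρ := h0
  have hρ1 : ρ < 1 := by linarith
  have hst := fun i : ℕ => step (μ := μ) (k := k) (t := ρ ^ ex (i + 1)) (T := ρ ^ ex i)
    (h := η ^ ex (i + 1)) (H := η ^ ex i) (by positivity) (by
      have := ex_ge i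
      have a : ρ ^ (ex i / 2) ≤ ρ := pow_le_of_le_one h0.le hρ1.le (by omega)
      have b : 0 < ρ ^ ex i := by positivity
      simp only [ex, pow_add]; nlinarith) (pow_le_one₀ h0.le hρ1.le) (by positivity)
    (pow_le_one₀ hη0.le hη1.le) (by positivity) (by
      intro W hWk
      have hi := ex_ge i
      have a : 9 * ρ ^ ex (i + 1) / ρ ^ ex i = 9 * ρ ^ (ex i / 2) := by
        simp only [ex, pow_add]; field_simp
      rw [a]
      refine ENNReal.toReal_le_of_le_ofReal (by positivity) ((hW W hWk _ (by positivity)).trans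
        (ENNReal.ofReal_le_ofReal ?_))
      rw [Real.mul_rpow (by norm_num) (by positivity), ← Real.rpow_pow_comm h0.le,
        le_div_iff₀ (by norm_num)]
      have hs : 0 < ρ ^ σ := by positivity
      calc C * (9 ^ σ * (ρ ^ σ) ^ (ex i / 2)) * 5 = 5 * C * 9 ^ σ * (ρ ^ σ) ^ (ex i / 2) := by ring
        _ ≤ K ^ (ex i / 2) * (ρ ^ σ) ^ (ex i / 2) := by
          gcongr
          exact (le_max_right _ _).trans (le_self_pow₀ hK1 (by omega))
        _ ≤ (η ^ 8) ^ (ex i / 2) := by rw [← mul_pow]; gcongr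
        _ ≤ _ := by
          rw [← pow_mul, ← pow_mul]
          exact pow_le_pow_of_le_one hη0.le hη1.le (by simp only [ex]; omega))
  choose Dd hDm hDle hD using hst
  have hlog : Real.log ρ < 0 := Real.log_neg h0 hρ1
  have hlη : Real.log η < 0 := Real.log_neg hη0 hη1
  refine ⟨Real.log η / (2 * Real.log ρ), div_pos_of_neg_of_neg hlη (by linarith), ρ ^ ex 0,
    by positivity, closedBall 0 1 ×ˢ closedBall 0 1 \ ⋃ i, Dd i,
    (measurableSet_closedBall.prod measurableSet_closedBall).diff (MeasurableSet.iUnion hDm),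
    ?_, ?_⟩
  · have b1 : μ (closedBall 0 1)ᶜ = 0 := measure_mono_null (fun z hz => by simpa using hz) hμ
    have b2 : (μ.prod μ) (closedBall 0 1 ×ˢ closedBall 0 1)ᶜ = 0 := by
      filter_upwards [Measure.quasiMeasurePreserving_fst.ae (show ∀ᵐ z ∂μ, z ∈ closedBall 0 1 from b1),
        Measure.quasiMeasurePreserving_snd.ae (show ∀ᵐ z ∂μ, z ∈ closedBall 0 1 from b1)]
        with z k1 k2 using ⟨k1, k2⟩
    have b3 : ∀ i, (μ.prod μ) (Dd i) ≤ ENNReal.ofReal (1 / 32 * (1 / 2) ^ i) := fun i => by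
      rw [← ENNReal.ofReal_toReal (measure_ne_top (μ.prod μ) (Dd i))]
      refine ENNReal.ofReal_le_ofReal ((hDle i).trans ?_)
      have hi := ex_ge i
      have a : (η ^ ex i) ^ 2 ≤ η ^ (i + 2) * η ^ ex (i + 1) := by
        rw [← pow_mul, ← pow_add]
        exact pow_le_pow_of_le_one hη0.le hη1.le (by simp only [ex]; omega)
      have b : η ^ i ≤ (1 / 2) ^ i := by gcongr; norm_num [hη]
      have c : 0 < η ^ i := by positivity
      rw [div_le_iff₀ (by positivity)]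
      calc _ ≤ 2 * (η ^ (i + 2) * η ^ ex (i + 1)) := by gcongr
        _ = 2 * η ^ 2 * η ^ i * η ^ ex (i + 1) := by ring
        _ ≤ _ := by gcongr; norm_num [hη]
    have b4 := (measure_iUnion_le _).trans (ENNReal.tsum_le_tsum b3)
    rw [← ENNReal.ofReal_tsum_of_nonneg (fun i => by positivity)
      (summable_geometric_two.mul_left _), tsum_mul_left, tsum_geometric_two] at b4
    rw [compl_sdiff]
    refine (measure_union_le _ _).trans ?_
    rw [b2, add_zero]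
    exact b4.trans_eq (by norm_num)
  · rintro x y ⟨⟨hx, hy⟩, hG⟩ V hV hxV hyV r hr hrτ
    rw [mem_closedBall_zero_iff] at hx hy
    have ind : ∀ i, ∀ V : Submodule ℝ (EuclideanSpace ℝ (Fin D)), Module.finrank ℝ V ≤ k + 1 →
        x ∈ nb V (ρ ^ ex i) → y ∈ nb V (ρ ^ ex i) → μ.real (nb V (ρ ^ ex i)) ≤ η ^ ex i := by
      intro i
      induction i with
      | zero =>
        intro V hV _ _
        exact ENNReal.toReal_le_of_le_ofReal (by positivity) ((measure_mono (nb_mono V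
          (pow_le_of_le_one h0.le hρ1.le (by simp [ex])))).trans (h1 V hV))
      | succ i ih => exact hD i x y hx hy (fun h => hG (mem_iUnion.2 ⟨i, h⟩)) ih
    have hex : ∃ i, ρ ^ ex i ≤ r := by
      obtain ⟨n, hn⟩ := exists_pow_lt_of_lt_one hr hρ1
      exact ⟨n, (pow_le_pow_of_le_one h0.le hρ1.le (by have := ex_ge n; omega)).trans hn.le⟩
    obtain ⟨i, hi⟩ : ∃ i, Nat.find hex = i + 1 := Nat.exists_eq_add_one.2 (Nat.pos_of_ne_zero
      fun h => by have := Nat.find_spec hex; rw [h] at this; linarith)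
    have c1 : ρ ^ ex (i + 1) ≤ r := hi ▸ Nat.find_spec hex
    have c2 : r < ρ ^ ex i := not_le.1 (Nat.find_min hex (by omega))
    have c3 : ∀ z ∈ V, z ∈ nb V (ρ ^ ex i) := fun z hz => ⟨z, hz, by simp; positivity⟩
    refine (measure_mono (nb_mono V c2.le)).trans ?_
    rw [← ENNReal.ofReal_toReal (measure_ne_top μ _)]
    refine ENNReal.ofReal_le_ofReal ((ind i V hV (c3 x hxV) (c3 y hyV)).trans ?_)
    have c4 : (ρ ^ 2) ^ (Real.log η / (2 * Real.log ρ)) = η := by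
      rw [Real.rpow_def_of_pos (by positivity), Real.log_pow, ← Real.exp_log hη0, Real.log_exp]
      congr 1
      have := hlog.ne
      push_cast; field_simp
    calc η ^ ex i = ((ρ ^ 2) ^ ex i) ^ (Real.log η / (2 * Real.log ρ)) := by
          rw [← Real.rpow_pow_comm (by positivity), c4]
      _ ≤ _ := by
          refine Real.rpow_le_rpow (by positivity) (le_trans ?_ c1)
            (div_pos_of_neg_of_neg hlη (by linarith)).le
          rw [← pow_mul]
          exact pow_le_pow_of_le_one h0.le hρ1.le (by simp only [ex]; omega)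

theorem seq_thin2 (hG : MeasurableSet G) (hG0 : (μ.prod μ) Gᶜ ≤ ENNReal.ofReal (1 / 16)) {p : ℝ} (hp : 0 ≤ p)
    (h : S μ G 1 p) :
    ∃ (G : Set (EuclideanSpace ℝ (Fin D) × EuclideanSpace ℝ (Fin D))) (C' : ℝ),
      MeasurableSet G ∧ (μ.prod μ) Gᶜ ≤ ENNReal.ofReal (1 / 8) ∧ ∀ x y, (x, y) ∈ G → ∀ r, 0 < r →
        μ (nb (Submodule.span ℝ {x, y}) r) ≤ ENNReal.ofReal (C' * r ^ p) := by
  obtain ⟨η, hη, δ₀, hδ₀, h⟩ := h
  set T : ℕ → Set (EuclideanSpace ℝ (Fin D) × EuclideanSpace ℝ (Fin D)) := fun m =>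
    {z | z ∈ G ∧ ENNReal.ofReal (((1 / 2 : ℝ) ^ m) ^ p) <
      μ (nb (Submodule.span ℝ {z.1, z.2}) ((1 / 2 : ℝ) ^ m))} with hT
  have hmp : MeasurePreserving
      ((MeasurableEquiv.finTwoArrow (α := EuclideanSpace ℝ (Fin D))).trans
        MeasurableEquiv.prodComm) (Measure.pi fun _ : Fin 2 => μ) (μ.prod μ) :=
    (Measure.measurePreserving_swap (μ := μ) (ν := μ)).comp (measurePreserving_finTwoArrow μ)
  have hTm : ∀ m : ℕ, (1 / 2 : ℝ) ^ m < δ₀ →
      (μ.prod μ) (T m) ≤ ENNReal.ofReal (((1 / 2 : ℝ) ^ η) ^ m) := by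
    intro m hm
    rw [← hmp.measure_preimage_equiv (T m)]
    have h1 := h ((1 / 2 : ℝ) ^ m) (by positivity) hm
    have h2 : ((1 / 2 : ℝ) ^ m) ^ η = ((1 / 2 : ℝ) ^ η) ^ m := by
      rw [← Real.rpow_natCast, ← Real.rpow_natCast, ← Real.rpow_mul (by norm_num),
        ← Real.rpow_mul (by norm_num), mul_comm]
    rw [h2] at h1
    refine le_trans (measure_mono ?_) h1
    rintro u ⟨hu, hu'⟩
    have hsp : sp u = Submodule.span ℝ {u 1, u 0} := by
      unfold sp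
      congr 1
      ext z
      simp only [Set.mem_range, Set.mem_insert_iff, Set.mem_singleton_iff, Fin.exists_fin_two]
      tauto
    refine ⟨fun i => ?_, ?_⟩
    · rw [Subsingleton.elim i 0]
      exact hu
    · rw [hsp]
      exact hu'
  have hρ0 : 0 ≤ (1 / 2 : ℝ) ^ η := by positivity
  have hρ1 : (1 / 2 : ℝ) ^ η < 1 := Real.rpow_lt_one (by norm_num) (by norm_num) hη
  have hsum : ∑' m : ℕ, ENNReal.ofReal (((1 / 2 : ℝ) ^ η) ^ m) ≠ ⊤ :=
    (summable_geometric_of_lt_one hρ0 hρ1).tsum_ofReal_lt_top.ne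
  have ht := ENNReal.tendsto_sum_nat_add _ hsum
  have e1 : ∀ᶠ i : ℕ in Filter.atTop,
      ∑' m : ℕ, ENNReal.ofReal (((1 / 2 : ℝ) ^ η) ^ (m + i)) < ENNReal.ofReal (1 / 16) :=
    ht.eventually (gt_mem_nhds (by simp))
  have e2 : ∀ᶠ i : ℕ in Filter.atTop, (1 / 2 : ℝ) ^ i < δ₀ :=
    (tendsto_pow_atTop_nhds_zero_of_lt_one (by norm_num) (by norm_num)).eventually
      (gt_mem_nhds hδ₀)
  obtain ⟨i, hi1, hi2⟩ := (e1.and e2).exists
  set U := ⋃ m : ℕ, toMeasurable (μ.prod μ) (T (m + i)) with hU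
  have hUm : MeasurableSet U := MeasurableSet.iUnion fun m => measurableSet_toMeasurable _ _
  have hUle : (μ.prod μ) U < ENNReal.ofReal (1 / 16) := by
    refine lt_of_le_of_lt ((measure_iUnion_le _).trans (ENNReal.tsum_le_tsum fun m => ?_)) hi1
    rw [measure_toMeasurable]
    refine hTm _ (lt_of_le_of_lt ?_ hi2)
    exact pow_le_pow_of_le_one (by norm_num) (by norm_num) (by omega)
  refine ⟨G \ U, ((2 : ℝ) ^ (i + 1)) ^ p, hG.diff hUm, ?_, ?_⟩
  · rw [Set.compl_sdiff]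
    refine (measure_union_le _ _).trans ((add_le_add hUle.le hG0).trans_eq ?_)
    rw [← ENNReal.ofReal_add (by norm_num) (by norm_num)]
    norm_num
  · rintro x y ⟨hxy, hxU⟩ r hr
    rw [← Real.mul_rpow (by positivity) hr.le]
    rcases le_or_gt 1 ((2 : ℝ) ^ i * r) with h1 | h1
    · refine prob_le_one.trans ?_
      rw [← ENNReal.ofReal_one]
      refine ENNReal.ofReal_le_ofReal (Real.one_le_rpow ?_ hp)
      rw [pow_succ]
      nlinarith
    · obtain ⟨m, hm1, hm2⟩ := exists_nat_pow_near_of_lt_one (x := (2 : ℝ) ^ i * r)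
        (y := (1 / 2 : ℝ)) (by positivity) h1.le (by norm_num) (by norm_num)
      have hi : (0 : ℝ) < 2 ^ i := by positivity
      have hq : (1 / 2 : ℝ) ^ (m + i) * 2 ^ i = (1 / 2 : ℝ) ^ m := by
        rw [pow_add, mul_assoc, ← mul_pow]
        norm_num
      have hr1 : r ≤ (1 / 2 : ℝ) ^ (m + i) := by
        have : r * 2 ^ i ≤ (1 / 2 : ℝ) ^ (m + i) * 2 ^ i := by rw [hq]; linarith
        exact le_of_mul_le_mul_right this hi
      have hr2 : (1 / 2 : ℝ) ^ (m + i) ≤ 2 ^ (i + 1) * r := by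
        have h3 : (1 / 2 : ℝ) ^ (m + i) ≤ (1 / 2 : ℝ) ^ m :=
          pow_le_pow_of_le_one (by norm_num) (by norm_num) (by omega)
        rw [pow_succ] at hm1
        rw [pow_succ]
        nlinarith
      have hnT : (x, y) ∉ T (m + i) := fun hT' =>
        hxU (Set.mem_iUnion.2 ⟨m, subset_toMeasurable _ _ hT'⟩)
      have hle : μ (nb (Submodule.span ℝ {x, y}) ((1 / 2 : ℝ) ^ (m + i))) ≤
          ENNReal.ofReal (((1 / 2 : ℝ) ^ (m + i)) ^ p) :=
        not_lt.1 fun h' => hnT ⟨hxy, h'⟩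
      refine (measure_mono (nb_mono_seq _ hr1)).trans (hle.trans (ENNReal.ofReal_le_ofReal ?_))
      exact Real.rpow_le_rpow (by positivity) hr2 hp

theorem thin_lin2 (hμ : ∀ᵐ z ∂μ, ‖z‖ ≤ 1) {k : ℕ} (hk : 1 ≤ k) {s σ C : ℝ} (hσ : 0 < σ)
    (h0 : ∀ (u : EuclideanSpace ℝ (Fin D)) (r : ℝ), 0 < r →
      μ (nb (Submodule.span ℝ {u}) r) ≤ ENNReal.ofReal (C * r ^ s))
    (hW : ∀ W : Submodule ℝ (EuclideanSpace ℝ (Fin D)), Module.finrank ℝ W ≤ k → ∀ r, 0 < r →
      μ (nb W r) ≤ ENNReal.ofReal (C * r ^ σ))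
    (hnull : ∀ V : Submodule ℝ (EuclideanSpace ℝ (Fin D)), Module.finrank ℝ V ≤ k + 1 →
      μ V = 0) {p : ℝ} (hp : 0 ≤ p) (hps : p < s) (hpk : p < k) :
    ∃ (G : Set (EuclideanSpace ℝ (Fin D) × EuclideanSpace ℝ (Fin D))) (C' : ℝ),
      MeasurableSet G ∧ (μ.prod μ) Gᶜ ≤ ENNReal.ofReal (1 / 8) ∧ ∀ x y, (x, y) ∈ G → ∀ r, 0 < r →
        μ (nb (Submodule.span ℝ {x, y}) r) ≤ ENNReal.ofReal (C' * r ^ p) := by
  obtain ⟨β, hβ, τ, hτ, G, hG, hG0, hN⟩ := nest2 hμ hσ hW hnull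
  refine seq_thin2 hG hG0 hp (seq_S_one hk hβ hp hps hpk (fun q hq => seq_S_level_zero hq h0)
    (fun j hj => ?_) (fun _ _ _ _ a b c d e f g => conc hμ hG a b c d e f g)
    (fun _ _ _ _ a b c d e => fstep hμ hG a b c d e))
  refine seq_S_of_empty hτ fun δ hδ hδ' u hu => ?_
  refine hN _ _ (hu 0) (sp u) ?_ (Submodule.subset_span ⟨_, rfl⟩)
    (Submodule.subset_span ⟨_, rfl⟩) δ hδ hδ'
  refine (finrank_range_le_card u).trans ?_
  simp only [Fintype.card_fin]
  omega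

theorem thin_main2 {n k : ℕ} (hk : 1 ≤ k) (μ : Measure (EuclideanSpace ℝ (Fin n)))
    [IsProbabilityMeasure μ] {R s C : ℝ} (hR : μ (ball 0 R)ᶜ = 0) (hs : (k : ℝ) - 1 < s)
    (hF : ∀ x r, 0 < r → μ (ball x r) ≤ ENNReal.ofReal (C * r ^ s))
    (hnull : ∀ V : AffineSubspace ℝ (EuclideanSpace ℝ (Fin n)),
      Module.finrank ℝ V.direction ≤ k → μ V = 0) {p : ℝ} (hp : 0 ≤ p) (hps : p < s) (hpk : p < k) :
    ∃ (G : Set (EuclideanSpace ℝ (Fin n) × EuclideanSpace ℝ (Fin n))) (C' : ℝ),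
      MeasurableSet G ∧ (μ.prod μ) Gᶜ ≤ ENNReal.ofReal (1 / 8) ∧ ∀ x y, (x, y) ∈ G → ∀ δ : ℝ, 0 < δ →
        μ {z | ∃ t : ℝ, dist z (x + t • (y - x)) < δ} ≤ ENNReal.ofReal (C' * δ ^ p) := by
  obtain ⟨T, hT, hsurj⟩ := aff_tail n
  obtain ⟨R', hR0, hRR⟩ : ∃ R' : ℝ, 0 ≤ R' ∧ R ≤ R' := ⟨|R|, abs_nonneg R, le_abs_self R⟩
  have hR' : μ (ball 0 R')ᶜ = 0 :=
    measure_mono_null (compl_subset_compl.2 (ball_subset_ball hRR)) hR
  obtain ⟨c, hcdef⟩ : ∃ c : ℝ, c = (1 + R')⁻¹ := ⟨_, rfl⟩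
  have hc : 0 < c := by rw [hcdef]; positivity
  have hcR : c * (1 + R') = 1 := by rw [hcdef]; field_simp
  have hc1 : c ≤ 1 := by nlinarith [mul_nonneg hc.le hR0]
  choose ι h0 h1 using fun z : EuclideanSpace ℝ (Fin n) => hsurj c (c • z)
  have hF' : ∀ x r, 0 < r → μ (ball x r) ≤ ENNReal.ofReal (max C 0 * r ^ s) := fun x r hr =>
    (hF x r hr).trans (ENNReal.ofReal_le_ofReal
      (mul_le_mul_of_nonneg_right (le_max_left _ _) (by positivity)))
  have hzero : ∀ v : EuclideanSpace ℝ (Fin (n + 1)), v 0 = 0 → ‖v‖ = ‖T v‖ := fun v h => by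
    have := hT v
    rw [h, zero_pow two_ne_zero, zero_add] at this
    exact (pow_left_inj₀ (norm_nonneg _) (norm_nonneg _) two_ne_zero).1 this
  have hdist : ∀ z z', ‖ι z - ι z'‖ ≤ ‖z - z'‖ := fun z z' => by
    rw [hzero _ (by rw [PiLp.sub_apply, h0, h0, sub_self]), map_sub, h1, h1, ← smul_sub, norm_smul,
      Real.norm_eq_abs, abs_of_pos hc]
    exact mul_le_of_le_one_left (norm_nonneg _) hc1
  have hcont : Continuous ι :=
    (LipschitzWith.of_dist_le_mul (K := 1) fun z z' => by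
      simpa [dist_eq_norm] using hdist z z').continuous
  have hι : Measurable ι := hcont.measurable
  have : IsProbabilityMeasure (μ.map ι) := Measure.isProbabilityMeasure_map hι.aemeasurable
  have hs0 : 0 ≤ s := by linarith
  obtain ⟨C₀, hC₀, H₀⟩ := aff_slab hT μ (le_max_right C 0) hR0 hc hc1 hR' hF' h0 h1 (m := 0)
    (by simpa using hs0)
  obtain ⟨m, rfl⟩ : ∃ m, k = m + 1 := ⟨k - 1, by omega⟩
  have hms : (m : ℝ) < s := by push_cast at hs; linarith
  obtain ⟨C₁, hC₁, H₁⟩ := aff_slab hT μ (le_max_right C 0) hR0 hc hc1 hR' hF' h0 h1 hms.le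
  have hnb : ∀ W r, (μ.map ι) (nb W r) = μ (ι ⁻¹' nb W r) := fun W r =>
    Measure.map_apply hι (aff_nb_open W r).measurableSet
  refine (thin_lin2 (μ := μ.map ι) ?_ hk (s := s) (σ := s - m) (C := max C₀ C₁) (by linarith) ?_ ?_ ?_
    hp hps hpk).elim ?_
  rotate_right
  · rintro G ⟨C', hG, hpos, hthin⟩
    refine ⟨Prod.map ι ι ⁻¹' G, C', (hι.prodMap hι) hG, ?_, fun x y hxy δ hδ => ?_⟩
    · rwa [Measure.map_prod_map _ _ hι hι, Measure.map_apply (hι.prodMap hι) hG.compl] at hpos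
    · refine le_trans (measure_mono ?_) ((hnb _ _).symm.le.trans (hthin (ι x) (ι y) hxy δ hδ))
      rintro z ⟨t, ht⟩
      refine ⟨ι (x + t • (y - x)), ?_, (hdist _ _).trans_lt (by rwa [dist_eq_norm] at ht)⟩
      have e : ι (x + t • (y - x)) = (1 - t) • ι x + t • ι y := by
        rw [← sub_eq_zero, ← norm_eq_zero, hzero, norm_eq_zero]
        · rw [map_sub, map_add, map_smul, map_smul, h1, h1, h1]
          module
        · simp only [PiLp.sub_apply, PiLp.add_apply, PiLp.smul_apply, h0, smul_eq_mul]; ring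
      rw [e]
      exact Submodule.add_mem _ (Submodule.smul_mem _ _ (Submodule.subset_span (by simp)))
        (Submodule.smul_mem _ _ (Submodule.subset_span (by simp)))
  · rw [ae_map_iff hι.aemeasurable (isClosed_le continuous_norm continuous_const).measurableSet]
    have : ∀ᵐ z ∂μ, z ∈ ball 0 R' := hR'
    filter_upwards [this] with z hz
    rw [mem_ball_zero_iff] at hz
    refine (abs_le_of_sq_le_sq' ?_ zero_le_one).2
    rw [hT, h0, h1, norm_smul, Real.norm_eq_abs, abs_of_pos hc]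
    have h2 : c * ‖z‖ ≤ c * R' := by gcongr
    have h3 : 0 ≤ c * ‖z‖ := by positivity
    nlinarith [mul_nonneg hc.le (mul_nonneg hc.le hR0)]
  · intro u r hr
    rw [hnb]
    refine (H₀ _ ?_ r hr).trans (ENNReal.ofReal_le_ofReal ?_)
    · simpa using finrank_span_le_card (R := ℝ) ({u} : Set _)
    · rw [Nat.cast_zero, sub_zero]
      exact mul_le_mul_of_nonneg_right (le_max_left _ _) (by positivity)
  · intro W hW r hr
    rw [hnb]
    exact (H₁ W hW r hr).trans (ENNReal.ofReal_le_ofReal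
      (mul_le_mul_of_nonneg_right (le_max_right _ _) (by positivity)))
  · intro V hV
    rw [Measure.map_apply hι V.closed_of_finiteDimensional.measurableSet]
    rcases (ι ⁻¹' (V : Set _)).eq_empty_or_nonempty with he | ⟨z₀, hz₀⟩
    · rw [he, measure_empty]
    obtain ⟨U, hU, hUV⟩ := aff_rank (T := T) V hV hz₀ (by rw [h0]; exact hc.ne')
    refine measure_mono_null (fun z hz => ?_)
      (hnull (AffineSubspace.mk' z₀ U) (by rwa [AffineSubspace.direction_mk']))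
    rw [SetLike.mem_coe, AffineSubspace.mem_mk', vsub_eq_sub]
    have h2 := hUV _ (V.sub_mem hz hz₀) (by rw [PiLp.sub_apply, h0, h0, sub_self])
    rw [map_sub, h1, h1, ← smul_sub] at h2
    have h3 := U.smul_mem c⁻¹ h2
    rwa [smul_smul, inv_mul_cancel₀ hc.ne', one_smul] at h3

end Pool.Agent.P.MP_bf60a1_an.TS
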