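import Pool.Agent.Lib.Helper82.Frostman
import Pool.Agent.P.MP_bf60a1_an.TS.Thin
import Pool.Agent.P.MP_bf60a1_an.TS.Key

/-! Right angles with two vertices in one set and one in another. -/

namespace Pool.Agent.P.MP_bf60a1_an.TS

open MeasureTheory Metric Set RA
open scoped ENNReal

/-- Euclidean space -/
abbrev EV (n : ℕ) := EuclideanSpace ℝ (Fin n)

variable {n : ℕ}

/-- Frostman condition -/
def Fr (μ : Measure (EV n)) (s : ℝ) : Prop :=
  ∃ C : ℝ, 0 ≤ C ∧ ∀ x r, 0 < r → μ (ball x r) ≤ ENNReal.ofReal (C * r ^ s)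

/-- a right angle -/
def RAng (K L : Set (EV n)) : Prop :=
  ∃ x ∈ L, ∃ y ∈ K, ∃ z ∈ K, x ≠ y ∧ y ≠ z ∧ x ≠ z ∧ inner ℝ (x - y) (z - y) = 0

theorem fr_of_small {μ : Measure (EV n)} [IsProbabilityMeasure μ] {s s' C : ℝ} (hs : 0 ≤ s')
    (hss : s' ≤ max s 0) (hC : 0 ≤ C)
    (h : ∀ x r, 0 < r → r ≤ 1 → μ (ball x r) ≤ ENNReal.ofReal (C * r ^ s)) : Fr μ s' := by
  refine ⟨C + 1, by positivity, fun x r hr => ?_⟩
  by_cases h1 : r ≤ 1 ∧ s' ≤ s
  · refine (h x r hr h1.1).trans (ENNReal.ofReal_le_ofReal ?_)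
    exact mul_le_mul (by linarith) (Real.rpow_le_rpow_of_exponent_ge hr h1.1 h1.2)
      (by positivity) (by positivity)
  · refine prob_le_one.trans (ENNReal.one_le_ofReal.2
      (one_le_mul_of_one_le_of_one_le (by linarith) ?_))
    rcases le_total 1 r with h2 | h2
    · exact Real.one_le_rpow h2 hs
    · have h3 : s' = 0 := le_antisymm ((le_max_iff.1 hss).resolve_left fun h => h1 ⟨h2, h⟩) hs
      rw [h3, Real.rpow_zero]

variable (μ ν : Measure (EV n)) [IsProbabilityMeasure μ] [IsProbabilityMeasure ν]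
  {K L : Set (EV n)}

theorem key3 (hK : IsCompact K) (hL : IsCompact L) (hμK : μ Kᶜ = 0) (hνL : ν Lᶜ = 0) {s c C : ℝ}
    (hs : 1 < s) (hsc : (n : ℝ) < s + c) (hF : Fr μ s) {G : Set (EV n × EV n)}
    (hG : MeasurableSet G) (hpos : (μ.prod ν) G ≠ 0)
    (hthin : ∀ x y, (x, y) ∈ G → ∀ δ : ℝ, 0 < δ →
      ν {z | (x, z) ∈ G ∧ ∃ t : ℝ, dist z (x + t • (y - x)) < δ} ≤ ENNReal.ofReal (C * δ ^ c)) :
    RAng K L := by
  obtain ⟨C₀, -, hF⟩ := hF
  refine key2 μ ν hK hL hμK hνL (C := max C₀ C) hs (by simpa using hsc)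
    (fun x r hr => (hF x r hr).trans (ENNReal.ofReal_le_ofReal ?_)) hG hpos
    fun x y hxy δ hδ => (hthin x y hxy δ hδ).trans (ENNReal.ofReal_le_ofReal ?_)
  · exact mul_le_mul_of_nonneg_right (le_max_left _ _) (by positivity)
  · exact mul_le_mul_of_nonneg_right (le_max_right _ _) (by positivity)

/-- the second measure charges a flat which the first one does not -/
theorem caseB (hK : IsCompact K) (hL : IsCompact L) (hμK : μ Kᶜ = 0) (hνL : ν Lᶜ = 0) {s t : ℝ}
    (hs : 1 < s) (hst : (n : ℝ) < s + t) (hF : Fr μ s) (hF' : Fr ν t)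
    (V : AffineSubspace ℝ (EV n)) (hμV : μ V = 0) (hνV : ν V ≠ 0) : RAng K L := by
  have hVc : IsClosed (V : Set (EV n)) := V.closed_of_finiteDimensional
  have hne : (V : Set (EV n)).Nonempty := nonempty_of_measure_ne_zero hνV
  obtain ⟨d, hd, hX⟩ : ∃ d : ℝ, 0 < d ∧ μ ({x | d ≤ infDist x V} ∩ K) ≠ 0 := by
    by_contra h
    push Not at h
    have h1 : μ (⋃ m : ℕ, {x | 1 / ((m : ℝ) + 1) ≤ infDist x V} ∩ K) = 0 :=
      measure_iUnion_null fun m => h _ (by positivity)
    have h2 := measure_union_null (measure_union_null h1 hμV) hμK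
    refine one_ne_zero ((measure_univ (μ := μ)).symm.trans (measure_mono_null (fun x _ => ?_) h2))
    by_cases hx : x ∈ K
    · by_cases hx' : x ∈ (V : Set (EV n))
      · exact Or.inl (Or.inr hx')
      · obtain ⟨m, hm⟩ := exists_nat_one_div_lt ((hVc.notMem_iff_infDist_pos hne).1 hx')
        exact Or.inl (Or.inl (mem_iUnion.2 ⟨m, hm.le, hx⟩))
    · exact Or.inr hx
  obtain ⟨R, hR0, hR⟩ := (hK.union hL).isBounded.subset_ball_lt 0 0
  obtain ⟨C, hC, hF'⟩ := hF'
  refine key3 μ ν hK hL hμK hνL (C := C * (1 + 2 * R / d) ^ t) hs hst hF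
    (G := ({x | d ≤ infDist x V} ∩ K) ×ˢ ((V : Set (EV n)) ∩ L))
    (((isClosed_le continuous_const (continuous_infDist_pt _)).inter hK.isClosed).prod
      (hVc.inter hL.isClosed)).measurableSet ?_ ?_
  · rw [Measure.prod_prod]
    exact mul_ne_zero hX (by rwa [measure_inter_conull hνL])
  · rintro x y ⟨⟨hx, hxK⟩, hy, hyL⟩ δ hδ
    rw [mul_assoc, ← Real.mul_rpow (by positivity) hδ.le]
    refine le_trans (measure_mono ?_) (hF' y _ (by positivity))
    rintro z ⟨⟨-, hz, -⟩, τ, hτ⟩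
    have h1 : |1 - τ| * d ≤ δ := by
      rcases eq_or_ne (1 - τ) 0 with h | h
      · rw [h, abs_zero, zero_mul]
        exact hδ.le
      have h2 : d ≤ dist x ((1 - τ)⁻¹ • (z - y) + y) :=
        le_trans hx (infDist_le_dist_of_mem (V.smul_vsub_vadd_mem _ hz hy hy))
      have h3 : (1 - τ) • (x - ((1 - τ)⁻¹ • (z - y) + y)) = x + τ • (y - x) - z := by
        rw [smul_sub, smul_add, smul_smul, mul_inv_cancel₀ h]
        module
      rw [dist_comm, dist_eq_norm, ← h3, norm_smul, Real.norm_eq_abs, ← dist_eq_norm] at hτ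
      exact (mul_le_mul_of_nonneg_left h2 (abs_nonneg _)).trans hτ.le
    have h4 : dist (x + τ • (y - x)) y = |1 - τ| * dist x y := by
      rw [dist_eq_norm, dist_eq_norm, ← Real.norm_eq_abs, ← norm_smul]
      congr 1
      module
    have h5 : dist x y ≤ 2 * R := by
      have a := mem_ball.1 (hR (Or.inl hxK))
      have b := mem_ball.1 (hR (Or.inr hyL))
      linarith [dist_triangle_right x y 0]
    have h6 : |1 - τ| * dist x y ≤ δ / d * (2 * R) :=
      mul_le_mul ((le_div_iff₀ hd).2 h1) h5 dist_nonneg (by positivity)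
    have h7 := dist_triangle z (x + τ • (y - x)) y
    rw [mem_ball, show (1 + 2 * R / d) * δ = δ + δ / d * (2 * R) by ring]
    linarith

/-- both measures vanish on proper flats -/
theorem caseC (hK : IsCompact K) (hL : IsCompact L) (hμK : μ Kᶜ = 0) (hνL : ν Lᶜ = 0) {s t : ℝ}
    (hs : 1 < s) (hsn : s ≤ n) (hn : (n : ℝ) < 2 * s) (hst : (n : ℝ) < s + t) (hF : Fr μ s)
    (hF' : Fr ν t)
    (hμ : ∀ V : AffineSubspace ℝ (EV n), Module.finrank ℝ V.direction < n → μ V = 0)
    (hν : ∀ V : AffineSubspace ℝ (EV n), Module.finrank ℝ V.direction < n → ν V = 0) :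
    RAng K L := by
  set lam : Measure (EV n) := (2⁻¹ : ℝ≥0∞) • (μ + ν) with hlam
  have hl : ∀ A, lam A = 2⁻¹ * (μ A + ν A) := fun A => by
    rw [hlam, Measure.smul_apply, Measure.add_apply, smul_eq_mul]
  have h2 : (μ + ν) = (2 : ℝ≥0∞) • lam := by
    rw [hlam, smul_smul, ENNReal.mul_inv_cancel (by norm_num) (by norm_num), one_smul]
  have : IsProbabilityMeasure lam := ⟨by
    rw [hl, measure_univ, measure_univ, one_add_one_eq_two,
      ENNReal.inv_mul_cancel (by norm_num) (by norm_num)]⟩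
  obtain ⟨R, -, hR⟩ := (hK.union hL).isBounded.subset_ball_lt 0 0
  have k1 := Nat.floor_le (show 0 ≤ (n : ℝ) - s by linarith)
  have k2 := Nat.lt_floor_add_one ((n : ℝ) - s)
  have k3 : ⌊(n : ℝ) - s⌋₊ + 1 < n := by
    have : (⌊(n : ℝ) - s⌋₊ + 1 : ℝ) < n := by linarith
    exact_mod_cast this
  have hu : (n : ℝ) - s < min s t := lt_min (by linarith) (by linarith)
  obtain ⟨p, hp1, hp2⟩ := exists_between (lt_min hu k2)
  rw [lt_min_iff] at hp2
  obtain ⟨C, hC, hF₁⟩ := hF
  obtain ⟨C₁, -, hC₁⟩ := fr_of_small (μ := μ) (s' := min s t) (by linarith)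
    ((min_le_left _ _).trans (le_max_left _ _)) hC fun x r hr _ => hF₁ x r hr
  obtain ⟨C', hC', hF₂⟩ := hF'
  obtain ⟨C₂, -, hC₂⟩ := fr_of_small (μ := ν) (s' := min s t) (by linarith)
    ((min_le_right _ _).trans (le_max_left _ _)) hC' fun x r hr _ => hF₂ x r hr
  obtain ⟨G, C₃, hG, hG0, hth⟩ := thin_main2 (k := ⌊(n : ℝ) - s⌋₊ + 1) (by omega) lam (R := R)
    (s := min s t) (C := max C₁ C₂) (by
      rw [hl, measure_mono_null (compl_subset_compl.2 (subset_union_left.trans hR)) hμK,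
        measure_mono_null (compl_subset_compl.2 (subset_union_right.trans hR)) hνL]
      simp) (by push_cast; linarith) (fun x r hr => by
      have a : μ (ball x r) ≤ ENNReal.ofReal (max C₁ C₂ * r ^ min s t) :=
        (hC₁ x r hr).trans (ENNReal.ofReal_le_ofReal
          (mul_le_mul_of_nonneg_right (le_max_left _ _) (by positivity)))
      have b : ν (ball x r) ≤ ENNReal.ofReal (max C₁ C₂ * r ^ min s t) :=
        (hC₂ x r hr).trans (ENNReal.ofReal_le_ofReal
          (mul_le_mul_of_nonneg_right (le_max_right _ _) (by positivity)))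
      rw [hl]
      refine (mul_le_mul_right (add_le_add a b) _).trans_eq ?_
      rw [← two_mul, ← mul_assoc, ENNReal.inv_mul_cancel (by norm_num) (by norm_num), one_mul])
    (fun V hV => by rw [hl, hμ V (hV.trans_lt k3), hν V (hV.trans_lt k3)]; simp) (p := p) (by linarith) hp2.1
    (by push_cast; exact hp2.2)
  refine key3 μ ν hK hL hμK hνL (C := 2 * C₃) (c := p) hs (by linarith) ⟨C, hC, hF₁⟩ hG
    (fun h0 => ?_) fun x y hxy δ hδ => ?_
  · have a : (μ.prod ν) Gᶜ ≤ ((μ + ν).prod (μ + ν)) Gᶜ :=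
      Measure.prod_mono (Measure.le_add_right le_rfl) (Measure.le_add_left le_rfl) _
    rw [h2, Measure.prod_smul_left, Measure.prod_smul_right, Measure.smul_apply,
      Measure.smul_apply, smul_eq_mul, smul_eq_mul, prob_compl_eq_one_iff hG |>.2 h0] at a
    have b := a.trans (mul_le_mul_right (mul_le_mul_right hG0 _) _)
    rw [← ENNReal.ofReal_ofNat 2, ← ENNReal.ofReal_mul (by norm_num),
      ← ENNReal.ofReal_mul (by norm_num), ENNReal.one_le_ofReal] at b
    norm_num at b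
  · refine (measure_mono fun z hz => hz.2).trans
      ((Measure.le_add_left (ν' := μ) le_rfl _).trans ?_)
    rw [h2, Measure.smul_apply, smul_eq_mul, mul_assoc, ENNReal.ofReal_mul (by norm_num),
      ENNReal.ofReal_ofNat]
    exact mul_le_mul_right (hth x y hxy δ hδ) _

/-- the statement in dimension `m` -/
def Stmt (m : ℕ) : Prop :=
  ∀ (μ ν : Measure (EV m)) [IsProbabilityMeasure μ] [IsProbabilityMeasure ν] (K L : Set (EV m)),
    IsCompact K → IsCompact L → μ Kᶜ = 0 → ν Lᶜ = 0 → ∀ s t : ℝ, 1 < s → (m : ℝ) < 2 * s → 0 ≤ t →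
    (m : ℝ) < s + t → Fr μ s → Fr ν t → RAng K L

/-- the first measure charges a flat -/
theorem caseA (hK : IsCompact K) (hL : IsCompact L) (hμK : μ Kᶜ = 0) (hνL : ν Lᶜ = 0) {s t : ℝ}
    (hs : 1 < s) (hn : (n : ℝ) < 2 * s) (hst : (n : ℝ) < s + t) (hF : Fr μ s) (hF' : Fr ν t)
    (V : AffineSubspace ℝ (EV n)) (hV : μ V ≠ 0) (ih : Stmt (Module.finrank ℝ V.direction)) :
    RAng K L := by
  obtain ⟨p, hp⟩ : (V : Set (EV n)).Nonempty := nonempty_of_measure_ne_zero hV
  set b := stdOrthonormalBasis ℝ V.direction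
  set A : EV (Module.finrank ℝ V.direction) →ₗᵢ[ℝ] EV n :=
    V.direction.subtypeₗᵢ.comp b.repr.symm.toLinearIsometry with hA
  set j : EV (Module.finrank ℝ V.direction) → EV n := fun a => p + A a with hj
  have hrange : (V : Set (EV n)) ⊆ range j := by
    intro z hz
    refine ⟨b.repr ⟨z - p, AffineSubspace.vsub_mem_direction hz hp⟩, ?_⟩
    simp [hj, hA]
  clear_value A b
  generalize Module.finrank ℝ V.direction = m at *
  have hjsub : ∀ a a', j a - j a' = A (a - a') := fun a a' => by simp [hj]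
  have hiso : Isometry j := Isometry.of_dist_eq fun a a' => by
    rw [dist_eq_norm, dist_eq_norm, hjsub, A.norm_map]
  have hcl := hiso.isClosedEmbedding
  have hme : MeasurableEmbedding j := hcl.measurableEmbedding
  set c := μ (range j) with hc
  have hc0 : c ≠ 0 := fun h => hV (measure_mono_null hrange h)
  have hct : c ≠ ∞ := measure_ne_top _ _
  set μ' : Measure (EV m) := c⁻¹ • μ.comap j with hμ'
  have hμa : ∀ S, μ' S = c⁻¹ * μ (j '' S) := fun S => by
    rw [hμ', Measure.smul_apply, hme.comap_apply, smul_eq_mul]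
  have : IsProbabilityMeasure μ' := ⟨by
    rw [hμa, image_univ, ← hc, ENNReal.inv_mul_cancel hc0 hct]⟩
  set B : EV n →ₗ[ℝ] EV m := LinearMap.adjoint A.toLinearMap with hB
  have hBA : ∀ a, B (A a) = a := fun a => ext_inner_right ℝ fun v => by
    rw [hB, LinearMap.adjoint_inner_left]
    exact A.inner_map_map a v
  have hBc : Continuous fun z => B (z - p) :=
    B.continuous_of_finiteDimensional.comp (continuous_id.sub continuous_const)
  have hrk : m + Module.finrank ℝ (LinearMap.ker B) = n := by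
    have := B.finrank_range_add_finrank_ker
    rwa [LinearMap.range_eq_top.2 fun a => ⟨_, hBA a⟩, finrank_top, finrank_euclideanSpace_fin,
      finrank_euclideanSpace_fin] at this
  have hrk' : (m : ℝ) + Module.finrank ℝ (LinearMap.ker B) = n := by exact_mod_cast hrk
  have : IsProbabilityMeasure (ν.map fun z => B (z - p)) :=
    Measure.isProbabilityMeasure_map hBc.measurable.aemeasurable
  obtain ⟨C, hC, hF⟩ := hF
  obtain ⟨C', hC', hF'⟩ := hF'
  obtain ⟨ρ, hρ⟩ := hL.exists_bound_of_continuousOn (f := fun z => z - p - A (B (z - p)))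
    ((continuous_id.sub continuous_const).sub (A.continuous.comp hBc)).continuousOn
  obtain ⟨_, ⟨x, hx, rfl⟩, y, hy, z, hz, hxy, hyz, hxz, hin⟩ := ih μ' (ν.map fun z => B (z - p))
    (j ⁻¹' K) ((fun z => B (z - p)) '' L) (hcl.isCompact_preimage hK) (hL.image hBc)
    (by
      rw [hμa, measure_mono_null (fun z hz => ?_) hμK, mul_zero]
      obtain ⟨a, ha, rfl⟩ := hz
      exact ha)
    (by
      rw [Measure.map_apply hBc.measurable (hL.image hBc).measurableSet.compl]
      exact measure_mono_null (fun z hz h => hz ⟨z, h, rfl⟩) hνL)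
    s (max (t - Module.finrank ℝ (LinearMap.ker B)) 0) hs
    (by linarith [Nat.cast_nonneg (α := ℝ) (Module.finrank ℝ (LinearMap.ker B))])
    (le_max_right _ _) (by linarith [le_max_left (t - Module.finrank ℝ (LinearMap.ker B)) 0])
    ⟨c⁻¹.toReal * C, mul_nonneg ENNReal.toReal_nonneg hC, fun x r hr => by
      rw [hμa, mul_assoc, ENNReal.ofReal_mul ENNReal.toReal_nonneg,
        ENNReal.ofReal_toReal (ENNReal.inv_ne_top.2 hc0)]
      refine mul_le_mul_right (le_trans (measure_mono ?_) (hF (j x) r hr)) _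
      rintro _ ⟨a, ha, rfl⟩
      rw [mem_ball, hiso.dist_eq]
      exact ha⟩
    (fr_of_small (C := (2 * |ρ| + 5) ^ Module.finrank ℝ (LinearMap.ker B) * C' *
      (1 + (Module.finrank ℝ (LinearMap.ker B) : ℝ)) ^ t) (le_max_right _ _) le_rfl (by positivity)
      fun a r hr hr1 => by
      rw [Measure.map_apply hBc.measurable measurableSet_ball, ← measure_inter_conull hνL]
      refine aff_tube ν hC' (abs_nonneg ρ) one_pos hF' (LinearMap.ker B) le_rfl (j a) hr hr1
        ((fun z => B (z - p)) ⁻¹' ball a r ∩ L) fun z hz => ⟨z - p - A (B (z - p)), ?_, (hρ z hz.2).trans (le_abs_self ρ), ?_⟩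
      · rw [LinearMap.mem_ker, map_sub, hBA, sub_self]
      · rw [show z - j a - (z - p - A (B (z - p))) = A (B (z - p) - a) by
          rw [map_sub A]; simp only [hj]; abel, A.norm_map, one_mul]
        exact mem_ball_iff_norm.1 hz.1)
  have hBj : ∀ a, B (j a - p) = a := fun a => by rw [hj, add_sub_cancel_left, hBA]
  refine ⟨x, hx, j y, hy, j z, hz, fun h => hxy (by rw [h]; exact hBj y), hiso.injective.ne hyz,
    fun h => hxz (by rw [h]; exact hBj z), ?_⟩
  rw [hjsub, ← hin, ← hBj y, ← map_sub B, hBj y, sub_sub_sub_cancel_right, hB,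
    LinearMap.adjoint_inner_left]
  rfl

theorem stmt (n : ℕ) : Stmt n := by
  induction n using Nat.strong_induction_on with
  | _ n ih =>
  intro μ ν _ _ K L hK hL hμK hνL s t hs hn _ hst hF hF'
  rcases lt_or_ge (n : ℝ) s with hsn | hsn
  · exact key3 μ ν hK hL hμK hνL (c := 0) (C := 1) hs (by linarith) hF MeasurableSet.univ
      (by simp) fun x y _ δ _ => by simpa using prob_le_one
  by_cases hμ : ∀ V : AffineSubspace ℝ (EV n), Module.finrank ℝ V.direction < n → μ V = 0
  · by_cases hν : ∀ V : AffineSubspace ℝ (EV n), Module.finrank ℝ V.direction < n → ν V = 0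
    · exact caseC μ ν hK hL hμK hνL hs hsn hn hst hF hF' hμ hν
    · push Not at hν
      obtain ⟨V, h1, h2⟩ := hν
      exact caseB μ ν hK hL hμK hνL hs hst hF hF' V (hμ V h1) h2
  · push Not at hμ
    obtain ⟨V, h1, h2⟩ := hμ
    exact caseA μ ν hK hL hμK hνL hs hn hst hF hF' V h2 (ih _ h1)

theorem final (hn : 2 ≤ n) {E F : Set (EV n)} (hE : AnalyticSet E) (hF : AnalyticSet F)
    (h1 : (n : ℝ≥0∞) / 2 < dimH E) (h2 : (n : ℝ≥0∞) < dimH E + dimH F) : RAng E F := by
  have hle : ∀ S : Set (EV n), dimH S ≤ n := fun S => (dimH_mono (subset_univ S)).trans_eq (by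
    rw [Real.dimH_univ_eq_finrank, finrank_euclideanSpace_fin])
  have hfin : ∀ S : Set (EV n), dimH S ≠ ∞ := fun S =>
    ne_top_of_le_ne_top (ENNReal.natCast_ne_top n) (hle S)
  have a0 := ENNReal.toReal_mono (ENNReal.natCast_ne_top n) (hle E)
  have a1 := ENNReal.toReal_strict_mono (hfin E) h1
  have a2 := ENNReal.toReal_strict_mono (ENNReal.add_ne_top.2 ⟨hfin E, hfin F⟩) h2
  rw [ENNReal.toReal_add (hfin E) (hfin F)] at a2
  simp only [ENNReal.toReal_div, ENNReal.toReal_natCast, ENNReal.toReal_ofNat] at a0 a1 a2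
  have hn' : (2 : ℝ) ≤ n := by exact_mod_cast hn
  obtain ⟨s, s1, s2⟩ := exists_between (max_lt a1 (sub_lt_iff_lt_add.2 a2))
  rw [max_lt_iff] at s1
  obtain ⟨t, t1, t2⟩ := exists_between (show n - s < (dimH F).toReal by linarith [s1.2])
  have fr : ∀ {S : Set (EV n)} {u : ℝ}, 0 < u → u < (dimH S).toReal → μH[u] S ≠ 0 := by
    intro S u hu h
    have := hausdorffMeasure_of_lt_dimH (d := u.toNNReal)
      ((ENNReal.ofReal_lt_iff_lt_toReal hu.le (hfin S)).2 h)
    rw [Real.coe_toNNReal _ hu.le] at this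
    rw [this]
    exact ENNReal.top_ne_zero
  have s0 : 0 < s := by linarith [s1.1]
  have t0 : 0 < t := by linarith
  obtain ⟨μ, K, C, _, hK, hKE, hμK, hC, hFr⟩ :=
    Pool.Agent.Lib.Helper82.frostman_analytic hE s0 (fr s0 s2)
  obtain ⟨ν, L, C', _, hL, hLF, hνL, hC', hFr'⟩ :=
    Pool.Agent.Lib.Helper82.frostman_analytic hF t0 (fr t0 t2)
  obtain ⟨x, hx, y, hy, z, hz, h⟩ := stmt n μ ν K L hK hL hμK hνL s t (by linarith [s1.1])
    (by linarith [s1.1]) t0.le (by linarith) ⟨C, by linarith, hFr⟩ ⟨C', by linarith, hFr'⟩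
  exact ⟨x, hLF hx, y, hKE hy, z, hKE hz, h⟩

end Pool.Agent.P.MP_bf60a1_an.TS
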